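import Pool.Agent.Y974.K3.Jen

/-!
# The sixth cumulant is positive on the third chaos, also with multilinear coefficients
(MP_a60258_pr)

We consider elements of the chaos of order `p = m + 3 ≥ 3` of the form
`X = ∑_{i,j,k} F_ijk(g) (y_i y_j y_k - δ_ij y_k - δ_ik y_j - δ_jk y_i)`, where `y` is a standard
Gaussian vector and `F(g)` is a symmetric tensor whose entries are `m`-linear forms in `m` further
independent standard Gaussian vectors. For `m = 0` these are all the elements of the third chaos of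
a standard Gaussian vector. We show `κ₆(X) ≥ 174960 tr (A³)`, where `A` is the Gram matrix of the
kernel with respect to one of its last three indices; in particular `κ₆(X) > 0` unless the kernel
vanishes.
-/

set_option autoImplicit false

open MeasureTheory ProbabilityTheory Finset MvPolynomial

namespace Pool.Agent.Results.MP_a60258_pr.ThirdChaos

/-- the law of independent standard Gaussian variables `g (l, j)`, `l < b`, `j < n` -/
noncomputable def gauss (b n : ℕ) : Measure (Fin b × Fin n → ℝ) :=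
  Measure.pi fun _ => gaussianReal 0 1

/-- the random variable `∑_{i,j,k} (∑_J t_{J,i,j,k} g_{0,J_0} ⋯ g_{m-1,J_{m-1}})
(y_i y_j y_k - δ_ij y_k - δ_ik y_j - δ_jk y_i)`, where `y_i = g (m, i)` is the last block -/
noncomputable def form {m n : ℕ} (t : (Fin m → Fin n) → Fin n → Fin n → Fin n → ℝ)
    (g : Fin (m + 1) × Fin n → ℝ) : ℝ :=
  ∑ i, ∑ j, ∑ k, (∑ J : Fin m → Fin n, t J i j k * ∏ l : Fin m, g (l.castSucc, J l)) *
    (g (Fin.last m, i) * g (Fin.last m, j) * g (Fin.last m, k)
      - (if i = j then 1 else 0) * g (Fin.last m, k)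
      - (if i = k then 1 else 0) * g (Fin.last m, j)
      - (if j = k then 1 else 0) * g (Fin.last m, i))

/-- the sixth cumulant of a centred random variable -/
noncomputable def kappa6 {Ω : Type} [MeasurableSpace Ω] (μ : Measure Ω) (X : Ω → ℝ) : ℝ :=
  (∫ ω, X ω ^ 6 ∂μ) - 15 * (∫ ω, X ω ^ 2 ∂μ) * (∫ ω, X ω ^ 4 ∂μ)
    - 10 * (∫ ω, X ω ^ 3 ∂μ) ^ 2 + 30 * (∫ ω, X ω ^ 2 ∂μ) ^ 3

/-- the Gram matrix of a kernel with respect to the first of its last three indices -/
noncomputable def gram {m n : ℕ} (t : (Fin m → Fin n) → Fin n → Fin n → Fin n → ℝ)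
    (i j : Fin n) : ℝ :=
  ∑ J, ∑ k, ∑ l, t J i k l * t J j k l

open Pool.Agent.TH722.K6 Pool.Agent.Y974.K3

/-- a kernel as a function of lists -/
noncomputable def lst {p n : ℕ} (t : (Fin p → Fin n) → ℝ) (I : List (Fin n)) : ℝ :=
  if h : I.length = p then t (fun k => I.get (Fin.cast h.symm k)) else 0

theorem lst_ofFn {p n : ℕ} (t : (Fin p → Fin n) → ℝ) (J : Fin p → Fin n) :
    lst t (List.ofFn J) = t J := by
  unfold lst
  rw [dif_pos (List.length_ofFn)]
  congr 1
  funext k
  simp

theorem eval_F {β : Type} [Fintype β] [DecidableEq β] {p n : ℕ} (b : Fin p → β)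
    (t : (Fin p → Fin n) → ℝ) (g : β × Fin n → ℝ) :
    MvPolynomial.eval g (F (List.ofFn b) (lst t)) = ∑ J, t J * ∏ k, g (b k, J k) := by
  rw [F_ofFn]
  simp only [map_sum, map_mul, eval_C, map_prod, eval_X, lst_ofFn]

/-- the coefficient family -/
noncomputable def fam {m n : ℕ} (t : (Fin m → Fin n) → Fin n → Fin n → Fin n → ℝ) :
    Fin n × Fin n × Fin n → List (Fin n) → ℝ := fun s => lst (fun J => t J s.1 s.2.1 s.2.2)

/-- the list of the coefficient blocks -/
def blk (m : ℕ) : List (Fin (m + 1)) := List.ofFn (fun k : Fin m => k.castSucc)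

theorem blk_nodup (m : ℕ) : (blk m).Nodup :=
  List.nodup_ofFn.2 fun _ _ h => Fin.castSucc_injective _ h

theorem last_not_mem (m : ℕ) : Fin.last m ∉ blk m := by
  unfold blk
  rw [List.mem_ofFn]
  rintro ⟨k, hk⟩
  exact (Fin.castSucc_lt_last k).ne hk

theorem fam_sym {m n : ℕ} (t : (Fin m → Fin n) → Fin n → Fin n → Fin n → ℝ)
    (h1 : ∀ J i j k, t J i j k = t J j i k) (h2 : ∀ J i j k, t J i j k = t J i k j) :
    Sy (fam t) := by
  refine ⟨fun x y z => ?_, fun x y z => ?_⟩
  · show lst (fun J => t J x y z) = lst (fun J => t J y x z)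
    congr 1; funext J; exact h1 J x y z
  · show lst (fun J => t J x y z) = lst (fun J => t J x z y)
    congr 1; funext J; exact h2 J x y z

theorem kappa6_ge {m n : ℕ} (t : (Fin m → Fin n) → Fin n → Fin n → Fin n → ℝ)
    (h1 : ∀ J i j k, t J i j k = t J j i k) (h2 : ∀ J i j k, t J i j k = t J i k j) :
    3240 * kap (blk m) (fam t) +
      174960 * Ex (R6 (sys (Fin.last m) (blk m) (fam t) (last_not_mem m))) ≤
      kappa6 (gauss (m + 1) n) (form t) := by
  have hev : ∀ g : Fin (m + 1) × Fin n → ℝ,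
      MvPolynomial.eval g (CF (Fin.last m) (blk m) (fam t)) = form t g := by
    intro g
    have hA : ∀ s : Fin n × Fin n × Fin n, MvPolynomial.eval g (F (blk m) (fam t s)) =
        ∑ J : Fin m → Fin n, t J s.1 s.2.1 s.2.2 * ∏ l : Fin m, g (l.castSucc, J l) := by
      intro s
      exact eval_F _ _ g
    unfold CF form
    simp only [map_sum, map_mul, map_sub, eval_X, eval_C, hA, Fintype.sum_prod_type]
  have hint : ∀ k : ℕ, ∫ g, form t g ^ k ∂(gauss (m + 1) n) =
      Ex (CF (Fin.last m) (blk m) (fam t) ^ k) := by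
    intro k
    rw [Ex_apply]
    show _ = ∫ g, MvPolynomial.eval g (CF (Fin.last m) (blk m) (fam t) ^ k) ∂(gauss (m + 1) n)
    refine integral_congr_ae (Filter.Eventually.of_forall fun g => ?_)
    show form t g ^ k = MvPolynomial.eval g (CF (Fin.last m) (blk m) (fam t) ^ k)
    rw [map_pow, hev]
  unfold kappa6
  rw [hint, hint, hint, hint]
  exact kappa_CF (Fin.last m) (blk m) (fam t) (last_not_mem m) (blk_nodup m) (fam_sym t h1 h2)

theorem kap_nonneg (m : ℕ) {n : ℕ} {α : Type} [Fintype α] (a : α → List (Fin n) → ℝ) :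
    0 ≤ kap (blk m) a := by
  cases m with
  | zero => exact (kap_nil a).ge
  | succ m =>
    obtain ⟨c, L, hL, hlen⟩ : ∃ c L, blk (m + 1) = c :: L ∧ L.length = m := by
      refine ⟨(0 : Fin (m + 1)).castSucc, List.ofFn (fun k : Fin m => (k.succ).castSucc), ?_,
        List.length_ofFn⟩
      unfold blk
      rw [List.ofFn_succ]
    have hge := kap_ge L c α a (hL ▸ blk_nodup (m + 1))
    rw [← hL, hlen, Ml_eq] at hge
    have h0 := tr3_Mm_nonneg (fun (s : α × (Fin m → Fin n)) i => a s.1 (List.ofFn s.2 ++ [i]))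
    linarith

theorem Mm_gram {m n : ℕ} (t : (Fin m → Fin n) → Fin n → Fin n → Fin n → ℝ) (i j : Fin n) :
    Mm (Zf (blk m) (fam t)) i j = gram t i j := by
  have hlen : (blk m).length = m := List.length_ofFn
  unfold Mm gram
  rw [Fintype.sum_prod_type, Finset.sum_comm]
  have hgen : ∀ (q : ℕ) (hq : q = m),
      ∑ J : Fin q → Fin n, ∑ s : Fin n × Fin n, fam t (i, s.1, s.2) (List.ofFn J) *
        fam t (j, s.1, s.2) (List.ofFn J) = ∑ J, ∑ k, ∑ l, t J i k l * t J j k l := by
    intro q hq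
    subst hq
    refine Finset.sum_congr rfl fun J _ => ?_
    rw [Fintype.sum_prod_type]
    refine Finset.sum_congr rfl fun k _ => Finset.sum_congr rfl fun l _ => ?_
    show lst (fun J => t J i k l) (List.ofFn J) * lst (fun J => t J j k l) (List.ofFn J) = _
    rw [lst_ofFn, lst_ofFn]
  exact hgen _ hlen

/-- **Result.** Let `m` be a natural number, `t` a kernel, symmetric in its last three indices, and
`X = form t` the element `∑ t_{J,i,j,k} g_{0,J_0} ⋯ g_{m-1,J_{m-1}}
(y_i y_j y_k - δ_ij y_k - δ_ik y_j - δ_jk y_i)` of the chaos of order `m + 3` of a standard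
Gaussian vector. Then `κ₆(X) ≥ 174960 tr (A³)` for the Gram matrix
`A_ij = ∑_{J,k,l} t_{J,i,k,l} t_{J,j,k,l}`, and `κ₆(X) > 0` if `t ≠ 0`. -/
theorem result (m n : ℕ) (t : (Fin m → Fin n) → Fin n → Fin n → Fin n → ℝ)
    (h1 : ∀ J i j k, t J i j k = t J j i k) (h2 : ∀ J i j k, t J i j k = t J i k j) :
    174960 * (∑ i, ∑ j, ∑ k, gram t i j * gram t j k * gram t k i) ≤
      kappa6 (gauss (m + 1) n) (form t) ∧
    (t ≠ 0 → 0 < kappa6 (gauss (m + 1) n) (form t)) := by
  have h := kappa6_ge t h1 h2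
  have hr := Ex_R6_ge (Fin.last m) (blk m) (fam t) (last_not_mem m) (blk_nodup m)
    (fam_sym t h1 h2)
  have hk := kap_nonneg m (fam t)
  have hg : tr3 (Mm (Zf (blk m) (fam t))) =
      ∑ i, ∑ j, ∑ k, gram t i j * gram t j k * gram t k i := by
    unfold tr3
    simp only [Mm_gram]
  refine ⟨by rw [← hg]; linarith, fun h0 => ?_⟩
  obtain ⟨J, i, j, k, hJ⟩ : ∃ J i j k, t J i j k ≠ 0 := by
    by_contra hn
    push Not at hn
    exact h0 (funext fun J => funext fun i => funext fun j => funext fun k => hn J i j k)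
  have hlen : (blk m).length = m := List.length_ofFn
  have hne : ∃ s x, Zf (blk m) (fam t) s x ≠ 0 := by
    have hgen : ∀ (q : ℕ) (hq : q = m), ∃ (s : (Fin n × Fin n) × (Fin q → Fin n)) (x : Fin n),
        fam t (x, s.1.1, s.1.2) (List.ofFn s.2) ≠ 0 := by
      intro q hq
      subst hq
      refine ⟨((j, k), J), i, ?_⟩
      show lst (fun J => t J i j k) (List.ofFn J) ≠ 0
      rw [lst_ofFn]
      exact hJ
    exact hgen _ hlen
  have hpos := tr3_Mm_pos _ hne
  linarith

end Pool.Agent.Results.MP_a60258_pr.ThirdChaos
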